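import Pool.Agent.L5helper55.SL.Top
import Pool.Agent.Helper227.RD.Jump

/-!
# Presentations of Polish spaces relative to an oracle
-/

set_option autoImplicit false

namespace Pool.Agent.L5helper55.SL

open Pool.Agent.Helper227

universe u

/-- The rational number with code `u`: `(a - b) / (c + 1)` for `u = ⟨a, ⟨b, c⟩⟩`. -/
noncomputable def ratVal (u : ℕ) : ℝ :=
  ((u.unpair.1 : ℝ) - (u.unpair.2.unpair.1 : ℝ)) / ((u.unpair.2.unpair.2 : ℝ) + 1)

/-- The total function `f` is computable with oracle `D`. -/
def CompIn (D : ℕ → Bool) (f : ℕ → ℕ) : Prop :=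
  TuringReducible (fun n => Part.some (f n)) (chi D)

/-- The space `X` has a `D`-computable presentation: a complete metric compatible with the
topology, a dense sequence `x`, and a `D`-computable function which sends `(i, j, n)` to a rational
number within `2 ^ (-n)` of the distance of `x i` and `x j`. -/
def Presented (D : ℕ → Bool) (X : Type u) [t : TopologicalSpace X] : Prop :=
  ∃ m : MetricSpace X, m.toPseudoMetricSpace.toUniformSpace.toTopologicalSpace = t ∧
    @CompleteSpace X m.toPseudoMetricSpace.toUniformSpace ∧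
    ∃ x : ℕ → X, DenseRange x ∧ ∃ f : ℕ → ℕ, CompIn D f ∧
      ∀ i j n : ℕ, |m.dist (x i) (x j) - ratVal (f (Nat.pair i (Nat.pair j n)))| ≤ (1 / 2 : ℝ) ^ n

end Pool.Agent.L5helper55.SL
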