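import Pool.Agent.W952.LP.Low

/-!
# A set which is low₂ and not computable in the first jump
-/

set_option autoImplicit false

namespace Pool.Agent.L5helper55.SL

open Pool.Agent.Helper227 Pool.Agent.H685R3 Encodable
open Pool.Agent.W952.LP (zero psi_le join_le le_join_right join_even' join_odd')

/-- Strings comparable to the initial segment forced out. -/
def Bad (x : List Bool × ℕ) : Prop :=
  ∃ ρ : List Bool, (ρ.take x.1.length = x.1.take ρ.length) ∧ Halt x.2 ρ

theorem s1_Bad : S1 Bad := by
  refine S1.ex (p := fun (x : List Bool × ℕ) (ρ : List Bool) =>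
    (ρ.take x.1.length = x.1.take ρ.length) ∧ Halt x.2 ρ) (S1.and (S1.of_prim ?_) ?_)
  · exact Primrec.eq.comp
      (Primrec.list_take.comp (Primrec.list_length.comp (Primrec.fst.comp Primrec.fst)) Primrec.snd)
      (Primrec.list_take.comp (Primrec.list_length.comp Primrec.snd) (Primrec.fst.comp Primrec.fst))
  · exact s1_Halt.comp (f := fun y : (List Bool × ℕ) × List Bool => (y.1.2, y.2))
      ((Primrec.snd.comp Primrec.fst).pair Primrec.snd)

/-- The jump of the generic set. -/
theorem jump_lim {z x : ℕ → Bool} (hx : ∀ n, x (2 * n) = jump z n) (e : ℕ) :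
    jump (lim z x) e = false ↔ ∃ n, ¬ Bad (pre (lim z x) n, e) := by
  constructor
  · intro h
    -- the index
    have hp : US fun B (e : ℕ) => ∃ ρ : List Bool, Halt e ρ ∧
        ∀ i < ρ.length, B (2 * i + 1) = ρ.getD i false := by
      refine US.ex (p := fun B (e : ℕ) (ρ : List Bool) => Halt e ρ ∧
        ∀ i < ρ.length, B (2 * i + 1) = ρ.getD i false) (US.and (US.of_s1 s1_Halt) ?_)
      refine US.all_lt (α := ℕ × List Bool) (p := fun B y i => B (2 * i + 1) = y.2.getD i false)
        (f := fun y => y.2.length) ?_ (Primrec.list_length.comp Primrec.snd)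
      exact US.query.comp (f := fun y : (ℕ × List Bool) × ℕ => (2 * y.2 + 1, y.1.2.getD y.2 false))
        ((Primrec.succ.comp (Primrec.nat_mul.comp (Primrec.const 2) Primrec.snd)).pair
          ((Primrec.list_getD false).comp (Primrec.snd.comp Primrec.fst) Primrec.snd))
    obtain ⟨f, -, ef⟩ := hp.to_jump
    have hno : ¬ ∃ τ, Forces z (f e, V z x (f e)) τ := by
      intro hτ
      rw [← psi_iff hx, ← jump_inv hx, ← ef] at hτ
      obtain ⟨ρ, h1, h2⟩ := hτ
      have h3 : jump (lim z x) e = true := by
        rw [jump_iff]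
        refine ⟨ρ.length, ?_⟩
        have : pre (lim z x) ρ.length = ρ := by
          refine List.ext_getElem (by simp) fun i h5 h6 => ?_
          rw [getElem_pre]
          have h7 := h2 i h6
          rw [inv_odd, List.getD_eq_getElem _ _ h6] at h7
          exact h7
        rw [this]
        exact h1
      rw [h] at h3
      cases h3
    refine ⟨(V z x (f e)).length, ?_⟩
    rw [pre_lim hx]
    rintro ⟨ρ, h1, h2⟩
    simp only at h1 h2
    apply hno
    set σ := V z x (f e) with hσ
    -- a real extending `σ` and `ρ`
    let b : ℕ → Bool := fun i => if i < σ.length then σ.getD i false else ρ.getD i false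
    have hb : ∀ i < ρ.length, b i = ρ.getD i false := by
      intro i hi
      by_cases h3 : i < σ.length
      · simp only [b, if_pos h3]
        have h4 : (ρ.take σ.length).getD i false = (σ.take ρ.length).getD i false := by rw [h1]
        have h5 : i < (ρ.take σ.length).length := by rw [List.length_take]; omega
        have h6 : i < (σ.take ρ.length).length := by rw [List.length_take]; omega
        rw [List.getD_eq_getElem _ _ h5, List.getD_eq_getElem _ _ h6, List.getElem_take,
          List.getElem_take] at h4
        rw [List.getD_eq_getElem _ _ h3, List.getD_eq_getElem _ _ hi]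
        exact h4.symm
      · simp only [b, if_neg h3]
    have hj : jump (join z b) (f e) = true := by
      rw [← ef]
      refine ⟨ρ, h2, fun i hi => ?_⟩
      rw [join_odd', hb i hi]
    obtain ⟨k, hk⟩ := jump_iff.1 hj
    refine ⟨pre b (max σ.length k), ?_, pre (join z b) k, ⟨?_, hk⟩, ?_⟩
    · simp only
      refine List.ext_getElem (by simp) fun i h2 h3 => ?_
      rw [List.getElem_take, getElem_pre]
      simp [b, h3]
    · simp only [length_pre]
      omega
    · intro i hi
      rw [length_pre] at hi
      rw [pre_getD _ _ _ _ hi]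
      by_cases h2 : i % 2 = 0
      · refine Or.inl ⟨h2, ?_⟩
        conv_rhs => rw [show i = 2 * (i / 2) by omega]
        rw [join_even']
      · refine Or.inr ⟨h2, ?_⟩
        rw [pre_getD _ _ _ _ (by omega)]
        conv_rhs => rw [show i = 2 * (i / 2) + 1 by omega]
        rw [join_odd']
  · rintro ⟨n, hn⟩
    by_contra h
    have h1 : jump (lim z x) e = true := by simpa using h
    obtain ⟨k, hk⟩ := jump_iff.1 h1
    apply hn
    refine ⟨pre (lim z x) k, ?_, hk⟩
    simp only [length_pre]
    rcases le_total n k with h2 | h2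
    · rw [take_pre _ _ _ h2, List.take_of_length_le (by rw [length_pre]; exact h2)]
    · rw [take_pre _ _ _ h2, List.take_of_length_le (by rw [length_pre]; exact h2)]

/-- A predicate with a computable initial segment of an oracle. -/
theorem SI.pre_comp {B L : ℕ → Bool} (hL : TLe L B) {α : Type*} [Primcodable α]
    {p : List Bool × α → Prop} (hp : SI B p) : SI B fun x : ℕ × α => p (pre L x.1, x.2) := by
  have h1 := tLe_iff_SI.1 hL
  have h2 : SI B fun x : ℕ × α => ∃ σ : List Bool, (σ.length = x.1 ∧
      ∀ i < σ.length, L i = σ.getD i false) ∧ p (σ, x.2) := by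
    refine SI.ex (p := fun (x : ℕ × α) (σ : List Bool) => (σ.length = x.1 ∧
      ∀ i < σ.length, L i = σ.getD i false) ∧ p (σ, x.2)) (SI.and (SI.and (SI.of_prim ?_) ?_) ?_)
    · exact Primrec.eq.comp (Primrec.list_length.comp Primrec.snd) (Primrec.fst.comp Primrec.fst)
    · refine SI.all_lt (α := (ℕ × α) × List Bool) (p := fun x i => L i = x.2.getD i false)
        (f := fun x => x.2.length) ?_ (Primrec.list_length.comp Primrec.snd)
      exact h1.comp (f := fun z : ((ℕ × α) × List Bool) × ℕ => (z.2, z.1.2.getD z.2 false))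
        (Primrec.snd.pair ((Primrec.list_getD false).comp (Primrec.snd.comp Primrec.fst) Primrec.snd))
    · exact hp.comp (f := fun y : (ℕ × α) × List Bool => (y.2, y.1.2))
        (Primrec.snd.pair (Primrec.snd.comp Primrec.fst))
  refine h2.of_eq fun x => ?_
  constructor
  · rintro ⟨σ, ⟨h3, h4⟩, h5⟩
    have : pre L x.1 = σ := by
      refine List.ext_getElem (by simp [h3]) fun i h6 h7 => ?_
      rw [getElem_pre, h4 i h7]
      simp [h7]
    rwa [this]
  · intro h
    exact ⟨pre L x.1, ⟨by simp, fun i hi => (pre_getD L _ _ _ (by simpa using hi)).symm⟩, h⟩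

/-- There is a set which is low₂ and not computable in the first jump. -/
theorem exists_low2 : ∃ D : ℕ → Bool, ¬ TLe D (jump zero) ∧
    TLe (jump (jump D)) (jump (jump zero)) := by
  set z : ℕ → Bool := jump zero with hz
  let x : ℕ → Bool := join (jump z) (fun _ => false)
  have hx : ∀ n, x (2 * n) = jump z n := join_even' _ _
  have hinv := inversion hx
  set L : ℕ → Bool := lim z x with hL
  have hLZ : TLe L (Pool.Agent.H685R3.inv z x) := by
    have hf : Primrec fun n : ℕ => 2 * n + 1 :=
      Primrec.succ.comp (Primrec.nat_mul.comp (Primrec.const 2) Primrec.id)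
    exact tLe_of_computable hf.to_comp fun n => (inv_odd n).symm
  have hzZ : TLe z (Pool.Agent.H685R3.inv z x) := hinv.1
  refine ⟨L, ?_, ?_⟩
  · intro h
    apply Pool.Agent.W952.LP.gen hx
    exact join_le (TuringReducible.refl _) h
  · -- the jump of `L`
    have hjL : TLe (jump L) (Pool.Agent.H685R3.inv z x) := by
      rw [tLe_iff_SI]
      have h1 : SI (Pool.Agent.H685R3.inv z x) fun e : ℕ => jump L e = true := (si_jump L).trans hLZ
      have h2 : SI (Pool.Agent.H685R3.inv z x) fun e : ℕ => jump L e = false := by
        have h3 : SI z fun y : List Bool × ℕ => ¬ Bad y := (SI.of_s1 (B := zero) s1_Bad).decide_jump.2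
        have h4 : SI (Pool.Agent.H685R3.inv z x) fun y : ℕ × ℕ => ¬ Bad (pre L y.1, y.2) :=
          SI.pre_comp hLZ (p := fun y : List Bool × ℕ => ¬ Bad y) (h3.trans hzZ)
        have h5 : SI (Pool.Agent.H685R3.inv z x) fun e : ℕ => ∃ n, ¬ Bad (pre L n, e) :=
          SI.ex (p := fun (e : ℕ) (n : ℕ) => ¬ Bad (pre L n, e))
            (h4.comp (f := fun y : ℕ × ℕ => (y.2, y.1)) (Primrec.snd.pair Primrec.fst))
        exact h5.of_eq fun e => (jump_lim hx e).symm
      have h6 : SI (Pool.Agent.H685R3.inv z x) fun y : ℕ × Bool =>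
          (jump L y.1 = true ∧ y.2 = true) ∨ (jump L y.1 = false ∧ y.2 = false) := by
        refine SI.or (SI.and (h1.comp (f := fun x : ℕ × Bool => x.1) Primrec.fst) (SI.of_prim ?_))
          (SI.and (h2.comp (f := fun x : ℕ × Bool => x.1) Primrec.fst) (SI.of_prim ?_))
        · exact Primrec.eq.comp Primrec.snd (Primrec.const true)
        · exact Primrec.eq.comp Primrec.snd (Primrec.const false)
      refine h6.of_eq fun y => ?_
      rcases y with ⟨n, b⟩
      cases b <;> simp
    refine TuringReducible.trans hjL.jump ?_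
    rw [hinv.2.1]
    refine TuringReducible.trans (psi_le _) (join_le (TuringReducible.refl _) ?_)
    rw [tLe_iff_SI]
    exact SI.of_prim (Primrec.eq.comp (Primrec.const false) Primrec.snd)

end Pool.Agent.L5helper55.SL
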