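import Pool.Agent.L5helper55.SL.Top
import Pool.Agent.W381.LQ.Non

/-!
# Solenoids: divisibility of the first coordinate
-/

set_option autoImplicit false

namespace Pool.Agent.L5helper55.SL

open Filter Topology Pool.Agent.W361.LQ

variable {q : ℕ → ℕ}

/-- The first coordinate. -/
def fst0 (q : ℕ → ℕ) : C(Sol q, UnitAddCircle) :=
  ⟨fun u => u.1 0, (continuous_apply 0).comp continuous_subtype_val⟩

@[simp] theorem fst0_apply (u : Sol q) : fst0 q u = u.1 0 := rfl

/-- The first coordinate is divisible by all `q k`. -/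
theorem div (k : ℕ) : ∃ g : C(Sol q, UnitAddCircle), ∀ u, q k • g u = fst0 q u := by
  refine ⟨⟨fun u => PP q k • u.1 (k + 1), ?_⟩, fun u => ?_⟩
  · exact (continuous_nsmul (PP q k)).comp ((continuous_apply (k + 1)).comp continuous_subtype_val)
  · change q k • (PP q k • u.1 (k + 1)) = u.1 0
    rw [smul_smul, mul_comm, ← PP_succ, down0]

attribute [local instance] PiCountable.metricSpace

theorem dist_special (hq : ∀ n, 0 < q n) (k : ℕ) :
    dist (Phi hq (PP q k)) (Phi hq 0) ≤ (2⁻¹ : ℝ) ^ k := by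
  refine (dist_le' hq _ _ k).trans ?_
  have hP : (0 : ℝ) < PP q k := by exact_mod_cast PP_pos hq k
  have h1 : (Phi hq (PP q k)).1 k = (Phi hq 0).1 k := by
    rw [Phi_apply, Phi_apply, zero_div, div_self hP.ne']
    simpa using (AddCircle.coe_period (p := (1 : ℝ)))
  rw [h1, sub_self, norm_zero, mul_zero, mul_zero, zero_add]

/-- The first coordinate is not divisible by numbers coprime to all `q k`. -/
theorem non (hq : ∀ n, 0 < q n) (m : ℕ) (hm : 2 ≤ m) (hc : ∀ k, Nat.Coprime m (q k))
    (g : C(Sol q, UnitAddCircle)) : ¬ ∀ u, m • g u = fst0 q u := by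
  intro hg
  have hM : (0 : ℝ) < m := by exact_mod_cast (by omega : 0 < m)
  let h : ℝ → UnitAddCircle := fun t => g (Phi hq t)
  have hh : Continuous h := g.continuous.comp (continuous_Phi hq)
  have hhM : ∀ t : ℝ, m • h t = (t : UnitAddCircle) := fun t => by
    change m • g (Phi hq t) = _
    rw [hg, fst0_apply, Phi_apply]
    simp [PP]
  let u : ℝ → UnitAddCircle := fun t => h t - ((t / m : ℝ) : UnitAddCircle)
  have hu : Continuous u := by
    refine hh.sub ?_
    exact (AddCircle.continuous_mk' (1 : ℝ)).comp (continuous_id.div_const _)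
  have huM : ∀ t, m • u t = 0 := fun t => by
    change m • (h t - ((t / m : ℝ) : UnitAddCircle)) = 0
    rw [nsmul_sub, hhM, Pool.Agent.W381.LQ.nsmul_div m hM, sub_self]
  have hloc : IsLocallyConstant u := by
    rw [IsLocallyConstant.iff_eventually_eq]
    intro x
    have h1 : ∀ᶠ y in 𝓝 x, dist (u y) (u x) < 1 / (m : ℝ) :=
      (hu.tendsto x).eventually (Metric.ball_mem_nhds _ (by positivity))
    filter_upwards [h1] with y hy
    rw [dist_eq_norm] at hy
    have h2 : m • (u y - u x) = 0 := by rw [nsmul_sub, huM, huM, sub_self]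
    exact sub_eq_zero.1 (tor h2 hy)
  have hconst : ∀ t, u t = u 0 := fun t => hloc.apply_eq_of_preconnectedSpace t 0
  have hform : ∀ t, h t - h 0 = ((t / m : ℝ) : UnitAddCircle) := fun t => by
    have h1 := hconst t
    change h t - ((t / m : ℝ) : UnitAddCircle) = h 0 - (((0 : ℝ) / m : ℝ) : UnitAddCircle) at h1
    rw [zero_div, AddCircle.coe_zero, sub_zero] at h1
    rw [← h1]
    abel
  have ht : Tendsto (fun k : ℕ => Phi hq (PP q k)) atTop (𝓝 (Phi hq 0)) := by
    rw [tendsto_iff_dist_tendsto_zero]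
    refine squeeze_zero (fun _ => dist_nonneg) (fun k => dist_special hq k) ?_
    exact tendsto_pow_atTop_nhds_zero_of_lt_one (by norm_num) (by norm_num)
  have hg2 : Tendsto (fun k : ℕ => h (PP q k)) atTop (𝓝 (h 0)) :=
    (g.continuous.tendsto (Phi hq 0)).comp ht
  have hev : ∀ᶠ k : ℕ in atTop, dist (h (PP q k)) (h 0) < 1 / (m : ℝ) :=
    hg2.eventually (Metric.ball_mem_nhds _ (by positivity))
  obtain ⟨k, hk⟩ := hev.exists
  rw [dist_eq_norm, hform] at hk
  have h3 : m • ((((PP q k : ℕ) : ℝ) / m : ℝ) : UnitAddCircle) = 0 := by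
    rw [Pool.Agent.W381.LQ.nsmul_div m hM, Pool.Agent.W381.LQ.coe_nat]
  have h4 := tor h3 hk
  rw [AddCircle.coe_eq_zero_iff] at h4
  obtain ⟨j, hj⟩ := h4
  have h5 : ((PP q k : ℕ) : ℝ) = (m : ℝ) * j := by
    have : (j : ℝ) = ((PP q k : ℕ) : ℝ) / m := by simpa using hj
    rw [this]; field_simp
  have h6 : ((PP q k : ℕ) : ℤ) = (m : ℤ) * j := by exact_mod_cast h5
  have h7 : m ∣ PP q k := by
    have : (m : ℤ) ∣ ((PP q k : ℕ) : ℤ) := ⟨j, h6⟩
    exact_mod_cast this
  have h8 : Nat.Coprime m (PP q k) := Nat.Coprime.prod_right fun j _ => hc j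
  have h9 : m = 1 := Nat.eq_one_of_dvd_coprimes h8 dvd_rfl h7
  omega

/-- The exponents coding the set `D`. -/
def qq (D : ℕ → Bool) (n : ℕ) : ℕ := M (2 * n + (D n).toNat)

theorem M_ge (n : ℕ) : 2 ≤ M n := by
  unfold M
  have : 0 < 2 ^ 2 ^ n := by positivity
  omega

theorem qq_pos (D : ℕ → Bool) (n : ℕ) : 0 < qq D n := by
  have := M_ge (2 * n + (D n).toNat)
  unfold qq
  omega

/-- The first coordinate is divisible by `M (2 n + i)` iff `D n = i`. -/
theorem div_iff (D : ℕ → Bool) (n : ℕ) (b : Bool) :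
    (∃ g : C(Sol (qq D), UnitAddCircle), ∀ u, M (2 * n + b.toNat) • g u = fst0 (qq D) u) ↔
      D n = b := by
  constructor
  · rintro ⟨g, hg⟩
    by_contra hne
    refine non (qq_pos D) (M (2 * n + b.toNat)) (M_ge _) (fun k => ?_) g hg
    apply Nat.coprime_fermatNumber_fermatNumber
    intro h
    have h1 : (D k).toNat ≤ 1 := Bool.toNat_le _
    have h2 : b.toNat ≤ 1 := Bool.toNat_le _
    have h3 : k = n := by omega
    subst h3
    apply hne
    have h4 : (D k).toNat = b.toNat := by omega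
    cases hD : D k <;> cases b <;> simp_all
  · rintro rfl
    exact div n

end Pool.Agent.L5helper55.SL
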