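import Pool.Agent.L5helper55.SL.Pres
import Pool.Agent.L5helper55.SL.Deg
import Pool.Agent.W361.LQ.Fin
import Pool.Agent.W89.LQ.Lt
import Pool.Agent.W565.LQ.Near
import Pool.Agent.W311.LQ.Init
import Pool.Agent.W924.LQ.BACK
import Pool.Agent.W605.LQ.Forth

/-!
# The solenoid of `qq D` has a computable presentation only if `D` is computable in the first jump
-/

set_option autoImplicit false

namespace Pool.Agent.L5helper55.SL

open Filter Topology Pool.Agent.W361.LQ Pool.Agent.Helper227 Pool.Agent.H685R3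
open Pool.Agent.W952.LP (zero)

universe u

/-- the index of the approximation -/
def ix (m : ℕ) : ℕ :=
  Nat.pair m.unpair.1 (Nat.pair m.unpair.2.unpair.1 (m.unpair.2.unpair.2 + 2))

/-- rounding -/
def rd (k w : ℕ) : ℕ :=
  (2 ^ (k + 1) * (w.unpair.1 - w.unpair.2.unpair.1) + (w.unpair.2.unpair.2 + 1)) /
    (2 * (w.unpair.2.unpair.2 + 1))

/-- from rational approximations to dyadic ones -/
def hh (f : ℕ → ℕ) (m : ℕ) : ℕ := rd m.unpair.2.unpair.2 (f (ix m))

theorem p_ix : Primrec ix :=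
  Primrec₂.natPair.comp (Primrec.fst.comp Primrec.unpair) (Primrec₂.natPair.comp
      (Primrec.fst.comp (Primrec.unpair.comp (Primrec.snd.comp Primrec.unpair)))
      (Primrec.nat_add.comp (Primrec.snd.comp (Primrec.unpair.comp (Primrec.snd.comp Primrec.unpair)))
        (Primrec.const 2)))

theorem p_rd : Primrec₂ rd := by
  have ha : Primrec fun x : ℕ × ℕ => x.2.unpair.1 := Primrec.fst.comp (Primrec.unpair.comp Primrec.snd)
  have hr : Primrec fun x : ℕ × ℕ => x.2.unpair.2.unpair :=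
    Primrec.unpair.comp (Primrec.snd.comp (Primrec.unpair.comp Primrec.snd))
  have hc : Primrec fun x : ℕ × ℕ => x.2.unpair.2.unpair.2 + 1 :=
    Primrec.succ.comp (Primrec.snd.comp hr)
  exact Primrec.nat_div.comp (Primrec.nat_add.comp (Primrec.nat_mul.comp
    (p_pow (Primrec.succ.comp Primrec.fst)) (Primrec.nat_sub.comp ha (Primrec.fst.comp hr))) hc)
    (Primrec.nat_mul.comp (Primrec.const 2) hc)

theorem computable_hh {f : ℕ → ℕ} (hf : Computable f) : Computable (hh f) := by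
  have h1 : Computable fun m : ℕ => m.unpair.2.unpair.2 :=
    (Primrec.snd.comp (Primrec.unpair.comp (Primrec.snd.comp Primrec.unpair))).to_comp
  have h2 : Computable fun m : ℕ => f (ix m) := hf.comp p_ix.to_comp
  have h3 : Computable₂ rd := p_rd.to_comp
  have h4 : Computable fun m : ℕ => rd m.unpair.2.unpair.2 (f (ix m)) := h3.comp h1 h2
  exact h4

theorem round_aux (k N c : ℕ) (hc : 0 < c) :
    |(((2 ^ (k + 1) * N + c) / (2 * c) : ℕ) : ℝ) / 2 ^ k - (N : ℝ) / c| ≤ (1 / 2) ^ (k + 1) := by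
  set h := (2 ^ (k + 1) * N + c) / (2 * c) with hh
  have h1 : h * (2 * c) ≤ 2 ^ (k + 1) * N + c := Nat.div_mul_le_self _ _
  have h2 : 2 ^ (k + 1) * N + c < (h + 1) * (2 * c) := by
    have := Nat.lt_div_mul_add (a := 2 ^ (k + 1) * N + c) (b := 2 * c) (by omega)
    rw [← hh] at this
    linarith
  have h1' : (h : ℝ) * (2 * c) ≤ 2 ^ (k + 1) * N + c := by exact_mod_cast h1
  have h2' : (2 : ℝ) ^ (k + 1) * N + c < (h + 1) * (2 * c) := by exact_mod_cast h2
  have hc' : (0 : ℝ) < c := by exact_mod_cast hc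
  have h3 : (h : ℝ) / 2 ^ k - (N : ℝ) / c = (h * c - 2 ^ k * N) / (2 ^ k * c) := by
    field_simp
  rw [h3, abs_div, abs_of_pos (show (0 : ℝ) < 2 ^ k * c by positivity), div_le_iff₀ (by positivity)]
  have h4 : (1 / 2 : ℝ) ^ (k + 1) * (2 ^ k * c) = c / 2 := by
    rw [pow_succ, one_div, inv_pow]
    field_simp
  rw [h4, abs_le]
  rw [pow_succ] at h1' h2'
  constructor <;> nlinarith

theorem hh_spec {d : ℕ → ℕ → ℝ} (hd : ∀ i j, 0 ≤ d i j) {f : ℕ → ℕ}
    (h : ∀ i j n : ℕ, |d i j - ratVal (f (Nat.pair i (Nat.pair j n)))| ≤ (1 / 2 : ℝ) ^ n)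
    (i j k : ℕ) : |(hh f (Nat.pair i (Nat.pair j k)) : ℝ) / 2 ^ k - d i j| ≤ 1 / 2 ^ k := by
  unfold hh rd ix
  simp only [Nat.unpair_pair]
  have h1 := h i j (k + 2)
  generalize f (Nat.pair i (Nat.pair j (k + 2))) = w at h1 ⊢
  unfold ratVal at h1
  generalize w.unpair.1 = a at h1 ⊢
  generalize w.unpair.2.unpair.1 = b at h1 ⊢
  generalize w.unpair.2.unpair.2 = c at h1 ⊢
  have h2 := round_aux k (a - b) (c + 1) (Nat.succ_pos _)
  have h3 : |((a - b : ℕ) : ℝ) / ((c + 1 : ℕ) : ℝ) - d i j| ≤ (1 / 2 : ℝ) ^ (k + 2) := by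
    have hd' := hd i j
    rcases le_total b a with hab | hab
    · rw [Nat.cast_sub hab, abs_sub_comm]
      push_cast
      exact h1
    · rw [Nat.sub_eq_zero_of_le hab, Nat.cast_zero, zero_div, zero_sub, abs_neg, abs_of_nonneg hd']
      refine le_trans ?_ h1
      have h4 : ((a : ℝ) - b) / ((c : ℝ) + 1) ≤ 0 := by
        apply div_nonpos_of_nonpos_of_nonneg
        · have : (a : ℝ) ≤ b := by exact_mod_cast hab
          linarith
        · positivity
      rw [abs_of_nonneg (by linarith)]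
      linarith
  have h5 : (1 / 2 : ℝ) ^ (k + 1) + (1 / 2) ^ (k + 2) ≤ 1 / 2 ^ k := by
    rw [pow_add, pow_add, ← one_div_pow]
    have : (0 : ℝ) < (1 / 2) ^ k := by positivity
    nlinarith
  calc |(((2 ^ (k + 1) * (a - b) + (c + 1)) / (2 * (c + 1)) : ℕ) : ℝ) / 2 ^ k - d i j|
      ≤ |(((2 ^ (k + 1) * (a - b) + (c + 1)) / (2 * (c + 1)) : ℕ) : ℝ) / 2 ^ k -
          ((a - b : ℕ) : ℝ) / ((c + 1 : ℕ) : ℝ)| +
        |((a - b : ℕ) : ℝ) / ((c + 1 : ℕ) : ℝ) - d i j| := abs_sub_le _ _ _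
    _ ≤ (1 / 2 : ℝ) ^ (k + 1) + (1 / 2) ^ (k + 2) := add_le_add h2 h3
    _ ≤ 1 / 2 ^ k := h5

theorem key (D : ℕ → Bool) (Y : Type) [MetricSpace Y] [CompactSpace Y] (φ : Sol (qq D) ≃ₜ Y)
    (y : ℕ → Y) (hy : DenseRange y) (h : ℕ → ℕ) (hh1 : Computable h)
    (hh2 : ∀ i j k : ℕ, |(h (Nat.pair i (Nat.pair j k)) : ℝ) / 2 ^ k - dist (y i) (y j)| ≤ 1 / 2 ^ k) :
    TLe D (jump zero) := by
  let f' : C(Y, UnitAddCircle) := ⟨fun q => fst0 (qq D) (φ.symm q),
    (fst0 (qq D)).continuous.comp φ.symm.continuous⟩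
  obtain ⟨C, d, hC⟩ := Pool.Agent.W311.LQ.main Y y hy f'
  obtain ⟨hL, hG⟩ := Pool.Agent.W89.LQ.Lt.main (fun i j => dist (y i) (y j)) h hh1 hh2
  have key : ∀ (n : ℕ) (b : Bool), D n = b ↔ ∃ (E : List (ℕ × ℕ)) (e : ℕ),
      Cond (LtY y) (GtY y) C d (M (2 * n + b.toNat)) E e := by
    intro n b
    rw [← div_iff]
    constructor
    · rintro ⟨g, hg⟩
      let g' : C(Y, UnitAddCircle) :=
        ⟨fun q => g (φ.symm q), g.continuous.comp φ.symm.continuous⟩
      exact Pool.Agent.W605.LQ.Forth.main Pool.Agent.W565.LQ.Near.main Y y hy f' g' C d _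
        (M_pos _) hC fun q => hg (φ.symm q)
    · rintro ⟨E, e, hE⟩
      obtain ⟨g', hg'⟩ := Pool.Agent.W924.LQ.BACK.main Pool.Agent.W565.LQ.Near.main Y y hy f' C d _
        (M_pos _) hC E e hE
      refine ⟨⟨fun x => g' (φ x), g'.continuous.comp φ.continuous⟩, fun x => ?_⟩
      have h3 := hg' (φ x)
      simp only [f', ContinuousMap.coe_mk, Homeomorph.symm_apply_apply] at h3
      exact h3
  rw [tLe_iff_SI]
  have h1 := Pool.Agent.W918.LQ.CX.main (LtY y) (GtY y) hL hG C d
  have h2 : Primrec fun x : ℕ × Bool => 2 * x.1 + x.2.toNat :=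
    Primrec.nat_add.comp (Primrec.nat_mul.comp (Primrec.const 2) Primrec.fst)
      (p_toNat.comp Primrec.snd)
  exact (h1.comp h2).of_eq fun x => (key x.1 x.2).symm

/-- a copy of the solenoid as a set -/
def Zt (D : ℕ → Bool) : Type := Sol (qq D)

theorem not_presented (D : ℕ → Bool) (Y : Type u) [t : TopologicalSpace Y] (hY : Presented zero Y)
    (ψ : Sol (qq D) ≃ₜ Y) : TLe D (jump zero) := by
  obtain ⟨m, rfl, -, y, hy, f, hf, ha⟩ := hY
  have hinj : Function.Injective (fun x : Zt D => ψ x) := ψ.injective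
  let mZ : MetricSpace (Zt D) := MetricSpace.induced (fun x : Zt D => ψ x) hinj m
  have hψ : Continuous (fun x : Zt D => ψ x) := continuous_induced_dom
  let φ : Sol (qq D) ≃ₜ Zt D :=
    { toFun := fun x => x
      invFun := fun x => x
      left_inv := fun _ => rfl
      right_inv := fun _ => rfl
      continuous_toFun := by
        refine continuous_induced_rng.2 ?_
        exact ψ.continuous
      continuous_invFun := by
        have h1 : Continuous fun x : Zt D => ψ.symm (ψ x) := ψ.symm.continuous.comp hψ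
        refine h1.congr fun x => ?_
        exact ψ.symm_apply_apply x }
  have : CompactSpace (Zt D) := φ.compactSpace
  have hf' : Computable f := by
    have : TuringReducible (fun n => Part.some (f n)) (fun _ => Part.some 0) := hf
    exact TuringReducible.partrec_of_const this
  let y' : ℕ → Zt D := fun n => ψ.symm (y n)
  have hdist : ∀ i j, dist (y' i) (y' j) = m.dist (y i) (y j) := by
    intro i j
    change m.dist (ψ (ψ.symm (y i))) (ψ (ψ.symm (y j))) = _
    rw [ψ.apply_symm_apply, ψ.apply_symm_apply]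
  have hy' : DenseRange y' := by
    have h1 : DenseRange fun n => φ (ψ.symm (y n)) :=
      (φ.surjective.denseRange.comp (ψ.symm.surjective.denseRange.comp hy ψ.symm.continuous)
        φ.continuous)
    exact h1
  refine key D (Zt D) φ y' hy' (hh f) (computable_hh hf') (hh_spec (fun _ _ => dist_nonneg) ?_)
  intro i j n
  rw [hdist]
  exact ha i j n

end Pool.Agent.L5helper55.SL
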