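import Pool.Agent.L5helper55.SL.Defs
import Pool.Agent.L5helper55.SL.Div
import Pool.Agent.W918.LQ.CX
import Pool.Agent.H685R3.US

/-!
# The solenoid of `qq D` is presented by `D`
-/

set_option autoImplicit false

namespace Pool.Agent.L5helper55.SL

open Filter Topology Pool.Agent.W361.LQ Pool.Agent.Helper227 Pool.Agent.H685R3

attribute [local instance] PiCountable.metricSpace

/-! ### Distances -/

/-- the distance of `a / b` to the nearest integer is `tr a b / b` -/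
theorem norm_coe_div (a b : ℕ) :
    ‖(((a : ℝ) / b : ℝ) : UnitAddCircle)‖ = (tr a b : ℝ) / b := by
  have := AddCircle.norm_div_natCast (p := (1 : ℝ)) (m := a) (n := b)
  rw [mul_one, one_mul] at this
  exact this

/-- the absolute value of the difference, times a power of two -/
def nd2 (A l B m : ℕ) : ℕ := (A * 2 ^ m - B * 2 ^ l) + (B * 2 ^ l - A * 2 ^ m)

theorem nd2_eq (A l B m : ℕ) : (nd2 A l B m : ℝ) = |(A : ℝ) * 2 ^ m - B * 2 ^ l| := by
  unfold nd2
  rcases le_total (A * 2 ^ m) (B * 2 ^ l) with h | h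
  · rw [Nat.sub_eq_zero_of_le h, zero_add, Nat.cast_sub h]
    have h' : (A : ℝ) * 2 ^ m ≤ B * 2 ^ l := by exact_mod_cast h
    rw [abs_of_nonpos (by linarith)]
    push_cast
    ring
  · rw [Nat.sub_eq_zero_of_le h, add_zero, Nat.cast_sub h]
    have h' : (B : ℝ) * 2 ^ l ≤ A * 2 ^ m := by exact_mod_cast h
    rw [abs_of_nonneg (by linarith)]
    push_cast
    ring

theorem norm_coe_abs (x : ℝ) : ‖((|x| : ℝ) : UnitAddCircle)‖ = ‖(x : UnitAddCircle)‖ := by
  rcases abs_choice x with h | h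
  · rw [h]
  · rw [h, AddCircle.coe_neg, norm_neg]

theorem coord (A l B m P : ℕ) (hP : 0 < P) :
    ‖(((A : ℝ) / 2 ^ l / P : ℝ) : UnitAddCircle) - (((B : ℝ) / 2 ^ m / P : ℝ) : UnitAddCircle)‖ =
      (tr (nd2 A l B m) (2 ^ (l + m) * P) : ℝ) / ((2 ^ (l + m) * P : ℕ) : ℝ) := by
  have hP' : (0 : ℝ) < P := by exact_mod_cast hP
  rw [← norm_coe_div, ← AddCircle.coe_sub, ← norm_coe_abs]
  congr 2
  rw [nd2_eq]
  have h1 : (A : ℝ) / 2 ^ l / P - (B : ℝ) / 2 ^ m / P =
      ((A : ℝ) * 2 ^ m - B * 2 ^ l) / ((2 ^ (l + m) * P : ℕ) : ℝ) := by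
    push_cast
    rw [pow_add]
    field_simp
  rw [h1, abs_div, abs_of_pos (a := ((2 ^ (l + m) * P : ℕ) : ℝ)) (by positivity)]

/-! ### The partial sums -/

/-- the fraction of term `i` -/
def tv (i n e P : ℕ) : ℕ × ℕ :=
  if tr n (2 ^ e * P) * 2 ^ i ≤ 2 ^ e * P then (tr n (2 ^ e * P), 2 ^ e * P) else (1, 2 ^ i)

theorem tv_pos (i n e P : ℕ) (hP : 0 < P) : 0 < (tv i n e P).2 := by
  unfold tv
  split_ifs
  · positivity
  · positivity

theorem tv_val (i n e P : ℕ) (hP : 0 < P) :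
    ((tv i n e P).1 : ℝ) / (tv i n e P).2 =
      min ((2⁻¹ : ℝ) ^ i) ((tr n (2 ^ e * P) : ℝ) / ((2 ^ e * P : ℕ) : ℝ)) := by
  have hQ : 0 < 2 ^ e * P := by positivity
  unfold tv
  generalize 2 ^ e * P = Q at hQ ⊢
  have hQ' : (0 : ℝ) < Q := by exact_mod_cast hQ
  generalize tr n Q = t
  have h2 : (2⁻¹ : ℝ) ^ i = 1 / 2 ^ i := by rw [inv_pow, one_div]
  split_ifs with h
  · rw [min_eq_right]
    rw [h2, div_le_div_iff₀ hQ' (by positivity), one_mul]
    exact_mod_cast h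
  · rw [min_eq_left]
    · simp
    · rw [h2, div_le_div_iff₀ (by positivity) hQ', one_mul]
      push Not at h
      exact_mod_cast h.le

/-- one step: the product, the numerator, the denominator -/
def stp (σ : List Bool) (n e i : ℕ) (s : ℕ × ℕ × ℕ) : ℕ × ℕ × ℕ :=
  (s.1 * M (2 * i + (σ.getD i false).toNat),
    s.2.1 * (tv i n e s.1).2 + s.2.2 * (tv i n e s.1).1, s.2.2 * (tv i n e s.1).2)

/-- the state after `K` steps -/
def sta (σ : List Bool) (n e : ℕ) : ℕ → ℕ × ℕ × ℕ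
  | 0 => (1, 0, 1)
  | i + 1 => stp σ n e i (sta σ n e i)

theorem sta_spec (D : ℕ → Bool) (n e K' K : ℕ) (hK : K ≤ K') :
    (sta (pre D K') n e K).1 = PP (qq D) K ∧ 0 < (sta (pre D K') n e K).2.2 ∧
      ((sta (pre D K') n e K).2.1 : ℝ) / (sta (pre D K') n e K).2.2 =
        ∑ i ∈ Finset.range K, min ((2⁻¹ : ℝ) ^ i)
          ((tr n (2 ^ e * PP (qq D) i) : ℝ) / ((2 ^ e * PP (qq D) i : ℕ) : ℝ)) := by
  induction K with
  | zero => simp [sta, PP]
  | succ K ih =>
    obtain ⟨h1, h2, h3⟩ := ih (by omega)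
    have hP := PP_pos (qq_pos D) K
    have h4 := tv_pos K n e (PP (qq D) K) hP
    have h5 : (pre D K').getD K false = D K := pre_getD D _ _ _ (by omega)
    refine ⟨?_, ?_, ?_⟩
    · simp only [sta, stp]
      rw [h1, h5, PP_succ]
      rfl
    · simp only [sta, stp]
      rw [h1]
      positivity
    · simp only [sta, stp]
      rw [h1, Finset.sum_range_succ, ← h3, ← tv_val K n e _ hP]
      have h6 : ((sta (pre D K') n e K).2.2 : ℝ) ≠ 0 := by exact_mod_cast h2.ne'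
      have h7 : ((tv K n e (PP (qq D) K)).2 : ℝ) ≠ 0 := by exact_mod_cast h4.ne'
      push_cast
      field_simp

/-- the approximation of the distance -/
def FF (σ : List Bool) (m : ℕ) : ℕ :=
  Nat.pair (sta σ (nd2 m.unpair.1.unpair.1 m.unpair.1.unpair.2 m.unpair.2.unpair.1.unpair.1
      m.unpair.2.unpair.1.unpair.2) (m.unpair.1.unpair.2 + m.unpair.2.unpair.1.unpair.2)
      (m.unpair.2.unpair.2 + 2)).2.1
    (Nat.pair 0 ((sta σ (nd2 m.unpair.1.unpair.1 m.unpair.1.unpair.2 m.unpair.2.unpair.1.unpair.1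
      m.unpair.2.unpair.1.unpair.2) (m.unpair.1.unpair.2 + m.unpair.2.unpair.1.unpair.2)
      (m.unpair.2.unpair.2 + 2)).2.2 - 1))

/-- the dense sequence -/
noncomputable def ds (D : ℕ → Bool) (k : ℕ) : Sol (qq D) :=
  Phi (qq_pos D) ((k.unpair.1 : ℝ) / 2 ^ k.unpair.2)

theorem dense_ds (D : ℕ → Bool) : DenseRange (ds D) := by
  rw [Metric.denseRange_iff]
  intro u r hr
  obtain ⟨t, ht0, ht⟩ := exists_Phi (qq_pos D) u (half_pos hr)
  have hc := (continuous_Phi (qq_pos D)).continuousAt (x := t)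
  rw [Metric.continuousAt_iff] at hc
  obtain ⟨δ, hδ, hδ'⟩ := hc (r / 2) (half_pos hr)
  obtain ⟨l, hl⟩ := exists_pow_lt_of_lt_one hδ (by norm_num : (2⁻¹ : ℝ) < 1)
  refine ⟨Nat.pair ⌊2 ^ l * t⌋₊ l, ?_⟩
  have h1 : dist ((⌊2 ^ l * t⌋₊ : ℝ) / 2 ^ l) t < δ := by
    rw [Real.dist_eq]
    have h3 := Nat.floor_le (show (0 : ℝ) ≤ 2 ^ l * t by positivity)
    have h4 := Nat.lt_floor_add_one ((2 : ℝ) ^ l * t)
    have h5 : (⌊2 ^ l * t⌋₊ : ℝ) / 2 ^ l - t = (⌊2 ^ l * t⌋₊ - 2 ^ l * t) / 2 ^ l := by field_simp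
    refine lt_of_le_of_lt ?_ hl
    rw [h5, abs_div, abs_of_pos (show (0 : ℝ) < 2 ^ l by positivity), inv_pow, ← one_div]
    rw [div_le_div_iff_of_pos_right (by positivity), abs_le]
    constructor <;> linarith
  have h2 := hδ' h1
  have h3 : ds D (Nat.pair ⌊2 ^ l * t⌋₊ l) = Phi (qq_pos D) ((⌊2 ^ l * t⌋₊ : ℝ) / 2 ^ l) := by
    unfold ds
    rw [Nat.unpair_pair]
  rw [h3]
  calc dist u (Phi (qq_pos D) ((⌊2 ^ l * t⌋₊ : ℝ) / 2 ^ l))
      ≤ dist u (Phi (qq_pos D) t) + dist (Phi (qq_pos D) t)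
        (Phi (qq_pos D) ((⌊2 ^ l * t⌋₊ : ℝ) / 2 ^ l)) := dist_triangle _ _ _
    _ < r / 2 + r / 2 := add_lt_add ht (by rw [dist_comm]; exact h2)
    _ = r := by ring

theorem approx (D : ℕ → Bool) (i j k K' : ℕ) (hK : k + 2 ≤ K') :
    |dist (ds D i) (ds D j) - ratVal (FF (pre D K') (Nat.pair i (Nat.pair j k)))| ≤
      (1 / 2 : ℝ) ^ k := by
  set A := i.unpair.1
  set l := i.unpair.2
  set B := j.unpair.1
  set m := j.unpair.2
  obtain ⟨h1, h2, h3⟩ := sta_spec D (nd2 A l B m) (l + m) K' (k + 2) hK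
  have hF : ratVal (FF (pre D K') (Nat.pair i (Nat.pair j k))) =
      ((sta (pre D K') (nd2 A l B m) (l + m) (k + 2)).2.1 : ℝ) /
        (sta (pre D K') (nd2 A l B m) (l + m) (k + 2)).2.2 := by
    unfold FF ratVal
    simp only [Nat.unpair_pair]
    rw [Nat.cast_sub (Nat.succ_le_of_lt h2)]
    simp
    rfl
  rw [hF, h3]
  change |dist (ds D i).1 (ds D j).1 - _| ≤ _
  rw [dist_split _ _ (k + 2)]
  have h4 : ∀ n : ℕ, ‖(ds D i).1 n - (ds D j).1 n‖ =
      (tr (nd2 A l B m) (2 ^ (l + m) * PP (qq D) n) : ℝ) / ((2 ^ (l + m) * PP (qq D) n : ℕ) : ℝ) :=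
    fun n => coord A l B m _ (PP_pos (qq_pos D) n)
  simp_rw [h4]
  rw [add_sub_cancel_left, abs_of_nonneg]
  · have h5 := tail_le (ds D i).1 (ds D j).1 (k + 2)
    simp_rw [h4] at h5
    refine h5.trans ?_
    rw [pow_add, ← one_div]
    have : (0 : ℝ) < (1 / 2) ^ k := by positivity
    nlinarith
  · have h5 := tail_nonneg (ds D i).1 (ds D j).1 (k + 2)
    simp_rw [h4] at h5
    exact h5

/-! ### Computability -/

section prim

variable {α : Type*} [Primcodable α]

theorem p_pow {f : α → ℕ} (hf : Primrec f) : Primrec fun a => 2 ^ f a :=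
  Pool.Agent.W918.LQ.CX.two_pow.comp hf

theorem p_tr {P Q : α → ℕ} (hP : Primrec P) (hQ : Primrec Q) : Primrec fun a => tr (P a) (Q a) := by
  unfold tr
  exact Primrec.nat_min.comp (Primrec.nat_mod.comp hP hQ)
    (Primrec.nat_sub.comp hQ (Primrec.nat_mod.comp hP hQ))

theorem p_nd2 {A l B m : α → ℕ} (hA : Primrec A) (hl : Primrec l) (hB : Primrec B)
    (hm : Primrec m) : Primrec fun a => nd2 (A a) (l a) (B a) (m a) := by
  unfold nd2
  have h1 := Primrec.nat_mul.comp hA (p_pow hm)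
  have h2 := Primrec.nat_mul.comp hB (p_pow hl)
  exact Primrec.nat_add.comp (Primrec.nat_sub.comp h1 h2) (Primrec.nat_sub.comp h2 h1)

theorem p_tv {i n e P : α → ℕ} (hi : Primrec i) (hn : Primrec n) (he : Primrec e)
    (hP : Primrec P) : Primrec fun a => tv (i a) (n a) (e a) (P a) := by
  unfold tv
  have hQ : Primrec fun a => 2 ^ e a * P a := Primrec.nat_mul.comp (p_pow he) hP
  have ht := p_tr hn hQ
  refine Primrec.ite (Primrec.nat_le.comp (Primrec.nat_mul.comp ht (p_pow hi)) hQ) ?_ ?_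
  · exact Primrec.pair ht hQ
  · exact Primrec.pair (Primrec.const 1) (p_pow hi)

theorem p_toNat : Primrec fun b : Bool => b.toNat :=
  (Primrec.cond Primrec.id (Primrec.const 1) (Primrec.const 0)).of_eq fun b => by cases b <;> rfl

theorem p_stp {σ : α → List Bool} {n e i : α → ℕ} {s : α → ℕ × ℕ × ℕ} (hσ : Primrec σ)
    (hn : Primrec n) (he : Primrec e) (hi : Primrec i) (hs : Primrec s) :
    Primrec fun a => stp (σ a) (n a) (e a) (i a) (s a) := by
  unfold stp
  have h1 : Primrec fun a => (s a).1 := Primrec.fst.comp hs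
  have h2 : Primrec fun a => (s a).2.1 := Primrec.fst.comp (Primrec.snd.comp hs)
  have h3 : Primrec fun a => (s a).2.2 := Primrec.snd.comp (Primrec.snd.comp hs)
  have h4 := p_tv hi hn he h1
  refine Primrec.pair ?_ (Primrec.pair ?_ ?_)
  · refine Primrec.nat_mul.comp h1 (Pool.Agent.W918.LQ.CX.p_M.comp (Primrec.nat_add.comp
      (Primrec.nat_mul.comp (Primrec.const 2) hi) (p_toNat.comp ((Primrec.list_getD false).comp hσ hi))))
  · exact Primrec.nat_add.comp (Primrec.nat_mul.comp h2 (Primrec.snd.comp h4))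
      (Primrec.nat_mul.comp h3 (Primrec.fst.comp h4))
  · exact Primrec.nat_mul.comp h3 (Primrec.snd.comp h4)

theorem p_sta {σ : α → List Bool} {n e K : α → ℕ} (hσ : Primrec σ)
    (hn : Primrec n) (he : Primrec e) (hK : Primrec K) :
    Primrec fun a => sta (σ a) (n a) (e a) (K a) := by
  have h1 : Primrec₂ fun (a : α) (x : ℕ × (ℕ × ℕ × ℕ)) => stp (σ a) (n a) (e a) x.1 x.2 :=
    p_stp (α := α × (ℕ × (ℕ × ℕ × ℕ))) (hσ.comp Primrec.fst) (hn.comp Primrec.fst)
      (he.comp Primrec.fst) (Primrec.fst.comp Primrec.snd) (Primrec.snd.comp Primrec.snd)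
  refine (Primrec.nat_rec' hK (Primrec.const ((1, 0, 1) : ℕ × ℕ × ℕ)) h1).of_eq fun a => ?_
  generalize K a = k
  induction k with
  | zero => rfl
  | succ k ih =>
    simp only at ih ⊢
    rw [ih]
    rfl

theorem p_FF : Primrec fun x : List Bool × ℕ => FF x.1 x.2 := by
  have hm : Primrec fun x : List Bool × ℕ => x.2 := Primrec.snd
  have hi : Primrec fun x : List Bool × ℕ => x.2.unpair.1 := Primrec.fst.comp (Primrec.unpair.comp hm)
  have hr : Primrec fun x : List Bool × ℕ => x.2.unpair.2 := Primrec.snd.comp (Primrec.unpair.comp hm)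
  have hj : Primrec fun x : List Bool × ℕ => x.2.unpair.2.unpair.1 :=
    Primrec.fst.comp (Primrec.unpair.comp hr)
  have hk : Primrec fun x : List Bool × ℕ => x.2.unpair.2.unpair.2 :=
    Primrec.snd.comp (Primrec.unpair.comp hr)
  have hA : Primrec fun x : List Bool × ℕ => x.2.unpair.1.unpair.1 :=
    Primrec.fst.comp (Primrec.unpair.comp hi)
  have hl : Primrec fun x : List Bool × ℕ => x.2.unpair.1.unpair.2 :=
    Primrec.snd.comp (Primrec.unpair.comp hi)
  have hB : Primrec fun x : List Bool × ℕ => x.2.unpair.2.unpair.1.unpair.1 :=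
    Primrec.fst.comp (Primrec.unpair.comp hj)
  have hm' : Primrec fun x : List Bool × ℕ => x.2.unpair.2.unpair.1.unpair.2 :=
    Primrec.snd.comp (Primrec.unpair.comp hj)
  have hs := p_sta (α := List Bool × ℕ) (Primrec.fst) (p_nd2 hA hl hB hm')
    (Primrec.nat_add.comp hl hm') (Primrec.nat_add.comp hk (Primrec.const 2))
  refine Primrec₂.natPair.comp (Primrec.fst.comp (Primrec.snd.comp hs)) (Primrec₂.natPair.comp
    (Primrec.const 0) (Primrec.nat_sub.comp (Primrec.snd.comp (Primrec.snd.comp hs))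
      (Primrec.const 1)))

end prim

theorem comp_gen (D : ℕ → Bool) {G : List Bool → ℕ → ℕ} {s : ℕ → ℕ}
    (hG : Primrec fun x : List Bool × ℕ => G x.1 x.2) (hs : Primrec s) :
    CompIn D fun m => G (pre D (s m)) m := by
  refine (SI.iff_recIn (B := D) (f := fun m : ℕ => Part.some (G (pre D (s m)) m))).2 ?_
  have hQ : PrimrecPred fun y : List Bool × (ℕ × ℕ) => G y.1 y.2.1 = y.2.2 :=
    Primrec.eq.comp (hG.comp (Primrec.fst.pair (Primrec.fst.comp Primrec.snd)))
      (Primrec.snd.comp Primrec.snd)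
  refine ((US.at_pre hQ (hs.comp Primrec.fst)).toSI D).of_eq fun x => ?_
  simp only [Part.mem_some_iff]
  exact eq_comm

theorem comp_FF (D : ℕ → Bool) :
    CompIn D fun m => FF (pre D (m.unpair.2.unpair.2 + 2)) m :=
  comp_gen D p_FF (Primrec.nat_add.comp (Primrec.snd.comp (Primrec.unpair.comp (Primrec.snd.comp
      Primrec.unpair))) (Primrec.const 2))

theorem presented (D : ℕ → Bool) : Presented D (Sol (qq D)) := by
  refine ⟨inferInstance, rfl, inferInstance, ds D, dense_ds D, _, comp_FF D, fun i j k => ?_⟩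
  have h := approx D i j k (k + 2) le_rfl
  simp only [Nat.unpair_pair]
  exact h

end Pool.Agent.L5helper55.SL
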