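import Mathlib

/-!
# The definitions used in the statement of `MP_f0c992_lc.LowSolenoid`

Sets of natural numbers are given by their characteristic sequences `ℕ → Bool`. Turing reducibility
is that of Mathlib, applied to characteristic functions.
-/

set_option autoImplicit false

namespace Pool.Agent.L5helper55.SL.Stmt

open Encodable
open Nat.Partrec (Code)

universe u

/-- The characteristic function of the set `A`, as an oracle. -/
def chi (A : ℕ → Bool) : ℕ →. ℕ := fun n => Part.some (A n).toNat

open Classical in
/-- The Turing jump of `A`: the set of all `e` such that for some `k` the `e`-th program halts on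
the input consisting of the first `k` values `A 0, ..., A (k - 1)` of the oracle and of `e`. -/
noncomputable def jump (A : ℕ → Bool) : ℕ → Bool := fun e =>
  decide (∃ k : ℕ, ((Denumerable.ofNat Code e).eval (encode ((List.range k).map A, e))).Dom)

/-- The empty set. -/
def empty : ℕ → Bool := fun _ => false

/-- `D` is of low`ₙ` degree: the `n`-th jumps of `D` and of the empty set are Turing equivalent. -/
def Low (n : ℕ) (D : ℕ → Bool) : Prop :=
  TuringEquivalent (chi (jump^[n] D)) (chi (jump^[n] empty))

/-- The rational number with code `u`: `(a - b) / (c + 1)` for `u = ⟨a, ⟨b, c⟩⟩`. -/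
noncomputable def ratVal (u : ℕ) : ℝ :=
  ((u.unpair.1 : ℝ) - (u.unpair.2.unpair.1 : ℝ)) / ((u.unpair.2.unpair.2 : ℝ) + 1)

/-- The total function `f` is computable with oracle `D`. -/
def CompIn (D : ℕ → Bool) (f : ℕ → ℕ) : Prop :=
  TuringReducible (fun n => Part.some (f n)) (chi D)

/-- The space `X` is `D`-presented: there are a complete metric compatible with the topology, a
dense sequence `x`, and a `D`-computable function which sends `(i, j, n)` to (the code of) a
rational number within `2 ^ (-n)` of the distance of `x i` and `x j`. -/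
def Presented (D : ℕ → Bool) (X : Type u) [t : TopologicalSpace X] : Prop :=
  ∃ m : MetricSpace X, m.toPseudoMetricSpace.toUniformSpace.toTopologicalSpace = t ∧
    @CompleteSpace X m.toPseudoMetricSpace.toUniformSpace ∧
    ∃ x : ℕ → X, DenseRange x ∧ ∃ f : ℕ → ℕ, CompIn D f ∧
      ∀ i j n : ℕ, |m.dist (x i) (x j) - ratVal (f (Nat.pair i (Nat.pair j n)))| ≤ (1 / 2 : ℝ) ^ n

/-- The covering dimension of `X` is at most `m`: every finite open cover has a finite open
refinement such that every point is in at most `m + 1` of its members. -/
def DimLE (X : Type) [TopologicalSpace X] (m : ℕ) : Prop :=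
  ∀ (ι : Type) [Finite ι] (U : ι → Set X), (∀ i, IsOpen (U i)) → (⋃ i, U i) = Set.univ →
    ∃ (κ : Type) (_ : Finite κ) (V : κ → Set X), (∀ k, IsOpen (V k)) ∧ (⋃ k, V k) = Set.univ ∧
      (∀ k, ∃ i, V k ⊆ U i) ∧ ∀ x, Set.ncard {k | x ∈ V k} ≤ m + 1

end Pool.Agent.L5helper55.SL.Stmt
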