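import Mathlib

/-!
# Solenoids: topology

The solenoid of a sequence `q` of positive numbers is the group of all sequences `u` of elements of
the circle with `q n • u (n + 1) = u n`. It is a compact connected abelian group of covering
dimension at most one.
-/

set_option autoImplicit false

namespace Pool.Agent.L5helper55.SL

open Set Topology

/-- The solenoid of the sequence `q`. -/
def Sol (q : ℕ → ℕ) : AddSubgroup (ℕ → UnitAddCircle) where
  carrier := {u | ∀ n, q n • u (n + 1) = u n}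
  add_mem' := by
    intro u v hu hv n
    simp only [Pi.add_apply, smul_add, hu n, hv n]
  zero_mem' := by
    intro n
    simp
  neg_mem' := by
    intro u hu n
    simp only [Pi.neg_apply, smul_neg, hu n]

/-- The covering dimension of `X` is at most `m`: every finite open cover has a finite open
refinement such that every point is in at most `m + 1` of its members. -/
def DimLE (X : Type) [TopologicalSpace X] (m : ℕ) : Prop :=
  ∀ (ι : Type) [Finite ι] (U : ι → Set X), (∀ i, IsOpen (U i)) → (⋃ i, U i) = Set.univ →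
    ∃ (κ : Type) (_ : Finite κ) (V : κ → Set X), (∀ k, IsOpen (V k)) ∧ (⋃ k, V k) = Set.univ ∧
      (∀ k, ∃ i, V k ⊆ U i) ∧ ∀ x, Set.ncard {k | x ∈ V k} ≤ m + 1

/-- The products of the numbers `q i`. -/
def PP (q : ℕ → ℕ) (n : ℕ) : ℕ := ∏ i ∈ Finset.range n, q i

section

variable {q : ℕ → ℕ}

theorem PP_succ (n : ℕ) : PP q (n + 1) = PP q n * q n := Finset.prod_range_succ _ _

theorem PP_pos (hq : ∀ n, 0 < q n) (n : ℕ) : 0 < PP q n := Finset.prod_pos fun i _ => hq i

theorem PP_dvd {m n : ℕ} (h : m ≤ n) : PP q m ∣ PP q n :=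
  Finset.prod_dvd_prod_of_subset _ _ _ (Finset.range_mono h)

/-- The one parameter subgroup, with values in the torus. -/
noncomputable def phi (q : ℕ → ℕ) (t : ℝ) (n : ℕ) : UnitAddCircle := ((t / PP q n : ℝ) : UnitAddCircle)

theorem phi_mem (hq : ∀ n, 0 < q n) (t : ℝ) : phi q t ∈ Sol q := by
  intro n
  have h1 : (0 : ℝ) < q n := by exact_mod_cast hq n
  have h2 : (0 : ℝ) < PP q n := by exact_mod_cast PP_pos hq n
  unfold phi
  rw [← AddCircle.coe_nsmul, nsmul_eq_mul, PP_succ, Nat.cast_mul]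
  congr 1
  field_simp

theorem continuous_phi : Continuous (phi q) := by
  refine continuous_pi fun n => ?_
  exact (AddCircle.continuous_mk' (1 : ℝ)).comp (continuous_id.div_const _)

/-- The one parameter subgroup. -/
noncomputable def Phi (hq : ∀ n, 0 < q n) (t : ℝ) : Sol q := ⟨phi q t, phi_mem hq t⟩

theorem continuous_Phi (hq : ∀ n, 0 < q n) : Continuous (Phi hq) :=
  Continuous.subtype_mk continuous_phi _

theorem isClosed_Sol : IsClosed (Sol q : Set (ℕ → UnitAddCircle)) := by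
  have : (Sol q : Set (ℕ → UnitAddCircle)) = ⋂ n, {u | q n • u (n + 1) = u n} := by
    ext u
    simp only [mem_iInter, mem_ofPred_eq, SetLike.mem_coe]
    rfl
  rw [this]
  refine isClosed_iInter fun n => isClosed_eq ?_ (continuous_apply n)
  exact (continuous_nsmul (q n)).comp (continuous_apply (n + 1))

instance : CompactSpace (Sol q) := isCompact_iff_compactSpace.1 isClosed_Sol.isCompact

/-- The coordinate `n` determines the coordinates below. -/
theorem down (u : Sol q) {m n : ℕ} (h : m ≤ n) :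
    (∏ i ∈ Finset.Ico m n, q i) • u.1 n = u.1 m := by
  induction n, h using Nat.le_induction with
  | base => simp
  | succ n hmn ih =>
    rw [Finset.prod_Ico_succ_top hmn, mul_smul, u.2 n, ih]

theorem down0 (u : Sol q) (n : ℕ) : PP q n • u.1 n = u.1 0 := by
  have := down u (Nat.zero_le n)
  rwa [← Finset.range_eq_Ico] at this

theorem prod_Ico_le (hq : ∀ n, 0 < q n) {m n : ℕ} :
    (∏ i ∈ Finset.Ico m n, q i) ≤ PP q n := by
  unfold PP
  refine Nat.le_of_dvd (PP_pos hq n) (Finset.prod_dvd_prod_of_subset _ _ _ ?_)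
  intro i hi
  rw [Finset.mem_Ico] at hi
  exact Finset.mem_range.2 hi.2

theorem norm_nsmul_le' (m : ℕ) (u : UnitAddCircle) : ‖m • u‖ ≤ m * ‖u‖ := by
  induction m with
  | zero => simp
  | succ m ih =>
    rw [succ_nsmul]
    refine (norm_add_le _ _).trans ?_
    push_cast
    linarith

theorem norm_le_of_le (hq : ∀ n, 0 < q n) (u v : Sol q) {m n : ℕ} (h : m ≤ n) :
    ‖u.1 m - v.1 m‖ ≤ PP q n * ‖u.1 n - v.1 n‖ := by
  rw [← down u h, ← down v h, ← smul_sub]
  refine (norm_nsmul_le' _ _).trans ?_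
  refine mul_le_mul_of_nonneg_right ?_ (norm_nonneg _)
  exact_mod_cast prod_Ico_le hq

end

attribute [local instance] PiCountable.metricSpace

section

variable {q : ℕ → ℕ}

theorem dist_def (u v : ℕ → UnitAddCircle) :
    dist u v = ∑' i : ℕ, min ((2⁻¹ : ℝ) ^ i) ‖u i - v i‖ := by
  rw [PiCountable.dist_eq_tsum]
  refine tsum_congr fun i => ?_
  rw [dist_eq_norm]
  rfl

theorem summable_def (u v : ℕ → UnitAddCircle) :
    Summable fun i : ℕ => min ((2⁻¹ : ℝ) ^ i) ‖u i - v i‖ := by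
  have := PiCountable.dist_summable u v
  refine this.congr fun i => ?_
  rw [dist_eq_norm]
  rfl

theorem tail_le (u v : ℕ → UnitAddCircle) (N : ℕ) :
    ∑' i : ℕ, min ((2⁻¹ : ℝ) ^ (i + N)) ‖u (i + N) - v (i + N)‖ ≤ 2 * (2⁻¹ : ℝ) ^ N := by
  have h1 : Summable fun i : ℕ => (2⁻¹ : ℝ) ^ (i + N) := by
    have : Summable fun i : ℕ => (2⁻¹ : ℝ) ^ i := summable_geometric_of_lt_one (by norm_num) (by norm_num)
    exact (this.mul_right ((2⁻¹ : ℝ) ^ N)).congr fun i => (pow_add _ _ _).symm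
  have h2 : Summable fun i : ℕ => min ((2⁻¹ : ℝ) ^ (i + N)) ‖u (i + N) - v (i + N)‖ :=
    (summable_nat_add_iff N).2 (summable_def u v)
  refine (h2.tsum_le_tsum (fun i => min_le_left _ _) h1).trans ?_
  have h3 : ∑' i : ℕ, (2⁻¹ : ℝ) ^ (i + N) = 2 * (2⁻¹ : ℝ) ^ N := by
    simp_rw [pow_add]
    rw [tsum_mul_right, tsum_geometric_of_lt_one (by norm_num) (by norm_num)]
    norm_num
  exact h3.le

theorem tail_nonneg (u v : ℕ → UnitAddCircle) (N : ℕ) :
    0 ≤ ∑' i : ℕ, min ((2⁻¹ : ℝ) ^ (i + N)) ‖u (i + N) - v (i + N)‖ :=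
  tsum_nonneg fun i => le_min (by positivity) (norm_nonneg _)

theorem dist_split (u v : ℕ → UnitAddCircle) (N : ℕ) :
    dist u v = (∑ i ∈ Finset.range N, min ((2⁻¹ : ℝ) ^ i) ‖u i - v i‖) +
      ∑' i : ℕ, min ((2⁻¹ : ℝ) ^ (i + N)) ‖u (i + N) - v (i + N)‖ := by
  rw [dist_def, (summable_def u v).sum_add_tsum_nat_add N]

theorem dist_le' (hq : ∀ n, 0 < q n) (u v : Sol q) (N : ℕ) :
    dist u v ≤ (N + 1) * (PP q N * ‖u.1 N - v.1 N‖) + (2⁻¹ : ℝ) ^ N := by
  change dist u.1 v.1 ≤ _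
  rw [dist_split u.1 v.1 (N + 1)]
  have h1 := tail_le u.1 v.1 (N + 1)
  have h2 : 2 * (2⁻¹ : ℝ) ^ (N + 1) = (2⁻¹ : ℝ) ^ N := by rw [pow_succ]; ring
  rw [h2] at h1
  refine add_le_add ?_ h1
  refine (Finset.sum_le_card_nsmul _ _ (PP q N * ‖u.1 N - v.1 N‖) fun i hi => ?_).trans ?_
  · exact (min_le_right _ _).trans (norm_le_of_le hq u v (Nat.lt_succ_iff.1 (Finset.mem_range.1 hi)))
  · rw [Finset.card_range, nsmul_eq_mul]
    push_cast
    exact le_rfl

theorem lift_circle (u : UnitAddCircle) : ∃ x : ℝ, 0 ≤ x ∧ x < 1 ∧ (x : UnitAddCircle) = u := by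
  have h := (AddCircle.equivIco (1 : ℝ) 0 u).2
  refine ⟨(AddCircle.equivIco (1 : ℝ) 0 u).1, h.1, by simpa using h.2, ?_⟩
  exact (AddCircle.equivIco (1 : ℝ) 0).symm_apply_apply u

theorem Phi_apply (hq : ∀ n, 0 < q n) (t : ℝ) (n : ℕ) :
    (Phi hq t).1 n = ((t / PP q n : ℝ) : UnitAddCircle) := rfl

theorem exists_Phi (hq : ∀ n, 0 < q n) (u : Sol q) {ε : ℝ} (hε : 0 < ε) :
    ∃ t : ℝ, 0 ≤ t ∧ dist u (Phi hq t) < ε := by
  obtain ⟨N, hN⟩ := exists_pow_lt_of_lt_one hε (by norm_num : (2⁻¹ : ℝ) < 1)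
  obtain ⟨x, hx0, -, hx⟩ := lift_circle (u.1 N)
  have hP : (0 : ℝ) < PP q N := by exact_mod_cast PP_pos hq N
  refine ⟨PP q N * x, by positivity, ?_⟩
  refine (dist_le' hq u _ N).trans_lt ?_
  have h1 : (Phi hq (PP q N * x)).1 N = u.1 N := by
    rw [Phi_apply, mul_div_cancel_left₀ _ hP.ne', hx]
  rw [h1, sub_self, norm_zero, mul_zero, mul_zero, zero_add]
  exact hN

theorem denseRange_Phi (hq : ∀ n, 0 < q n) : DenseRange (Phi hq) := by
  rw [Metric.denseRange_iff]
  intro u r hr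
  obtain ⟨t, -, ht⟩ := exists_Phi hq u hr
  exact ⟨t, ht⟩

theorem connectedSpace (hq : ∀ n, 0 < q n) : ConnectedSpace (Sol q) := by
  have : PreconnectedSpace (Sol q) := (denseRange_Phi hq).preconnectedSpace (continuous_Phi hq)
  exact ⟨inferInstance⟩

/-- The integers close to a real number. -/
theorem int_near {y : ℝ} {k : ℤ} (h : |y - k| < 1) : k = ⌊y⌋ ∨ k = ⌊y⌋ + 1 := by
  have h1 := Int.floor_le y
  have h2 := Int.lt_floor_add_one y
  rw [abs_lt] at h
  have h3 : (⌊y⌋ : ℝ) < (k + 1 : ℤ) := by push_cast; linarith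
  have h4 : (k : ℝ) < (⌊y⌋ + 2 : ℤ) := by push_cast; linarith
  have h5 : ⌊y⌋ < k + 1 := by exact_mod_cast h3
  have h6 : k < ⌊y⌋ + 2 := by exact_mod_cast h4
  omega

theorem dimLE (hq : ∀ n, 0 < q n) : DimLE (Sol q) 1 := by
  classical
  intro ι _ U hU hcov
  obtain ⟨δ, hδ, hδU⟩ := lebesgue_number_lemma_of_metric (isCompact_univ (X := Sol q)) hU
    (by rw [hcov])
  obtain ⟨N, hN⟩ := exists_pow_lt_of_lt_one (half_pos hδ) (by norm_num : (2⁻¹ : ℝ) < 1)
  have hP : (0 : ℝ) < PP q N := by exact_mod_cast PP_pos hq N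
  set C : ℝ := (N + 1) * PP q N with hC
  have hCpos : 0 < C := by positivity
  obtain ⟨K, hK⟩ := exists_nat_gt (4 * C / δ)
  have hK0 : (0 : ℝ) < K := lt_of_le_of_lt (by positivity) hK
  have hKn : 0 < K := by exact_mod_cast hK0
  let V : Fin K → Set (Sol q) := fun k => {u | ‖u.1 N - (((k : ℕ) / (K : ℝ) : ℝ) : UnitAddCircle)‖ < 1 / K}
  refine ⟨Fin K, inferInstance, V, ?_, ?_, ?_, ?_⟩
  · intro k
    refine isOpen_lt ?_ continuous_const
    exact (((continuous_apply N).comp continuous_subtype_val).sub continuous_const).norm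
  · rw [eq_univ_iff_forall]
    intro u
    rw [mem_iUnion]
    obtain ⟨x, hx0, hx1, hx⟩ := lift_circle (u.1 N)
    have h1 : ⌊K * x⌋₊ < K := by
      rw [Nat.floor_lt (by positivity)]
      nlinarith
    refine ⟨⟨⌊K * x⌋₊, h1⟩, ?_⟩
    change ‖u.1 N - ((((⌊K * x⌋₊ : ℕ) : ℝ) / (K : ℝ) : ℝ) : UnitAddCircle)‖ < 1 / K
    rw [← hx, ← AddCircle.coe_sub]
    have h2 : |x - (⌊K * x⌋₊ : ℝ) / K| < 1 / K := by
      have h3 := Nat.floor_le (show 0 ≤ K * x by positivity)
      have h4 := Nat.lt_floor_add_one (K * x)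
      have h5 : x - (⌊K * x⌋₊ : ℝ) / K = (K * x - ⌊K * x⌋₊) / K := by field_simp
      rw [h5, abs_div, abs_of_pos hK0, div_lt_div_iff_of_pos_right hK0, abs_lt]
      constructor <;> linarith
    refine lt_of_le_of_lt ?_ h2
    rw [UnitAddCircle.norm_eq]
    simpa using round_le (x - (⌊K * x⌋₊ : ℝ) / K) 0
  · intro k
    by_cases hne : (V k).Nonempty
    · obtain ⟨u, hu⟩ := hne
      obtain ⟨i, hi⟩ := hδU u (mem_univ _)
      refine ⟨i, fun v hv => hi ?_⟩
      rw [Metric.mem_ball]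
      refine (dist_le' hq v u N).trans_lt ?_
      have h1 : ‖v.1 N - u.1 N‖ < 2 / K := by
        have h2 : v.1 N - u.1 N = (v.1 N - (((k : ℕ) / (K : ℝ) : ℝ) : UnitAddCircle)) -
          (u.1 N - (((k : ℕ) / (K : ℝ) : ℝ) : UnitAddCircle)) := by abel
        rw [h2]
        refine (norm_sub_le _ _).trans_lt ?_
        have h3 : ‖v.1 N - (((k : ℕ) / (K : ℝ) : ℝ) : UnitAddCircle)‖ < 1 / K := hv
        have h4 : ‖u.1 N - (((k : ℕ) / (K : ℝ) : ℝ) : UnitAddCircle)‖ < 1 / K := hu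
        have h5 : (2 : ℝ) / K = 1 / K + 1 / K := by ring
        rw [h5]
        exact add_lt_add h3 h4
      have h6 : (N + 1 : ℝ) * (PP q N * ‖v.1 N - u.1 N‖) < δ / 2 := by
        have h7 : (N + 1 : ℝ) * (PP q N * ‖v.1 N - u.1 N‖) = C * ‖v.1 N - u.1 N‖ := by
          rw [hC]; ring
        rw [h7]
        have h8 : C * ‖v.1 N - u.1 N‖ < C * (2 / K) := mul_lt_mul_of_pos_left h1 hCpos
        refine h8.trans ?_
        rw [div_lt_iff₀ hδ] at hK
        rw [mul_div_assoc', div_lt_iff₀ hK0]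
        linarith
      linarith
    · have hι : Nonempty ι := by
        obtain ⟨i, -⟩ := hδU 0 (mem_univ _)
        exact ⟨i⟩
      refine ⟨Classical.arbitrary ι, ?_⟩
      rw [not_nonempty_iff_eq_empty] at hne
      rw [hne]
      exact empty_subset _
  · intro u
    obtain ⟨x, hx0, hx1, hx⟩ := lift_circle (u.1 N)
    have hsub : {k : Fin K | u ∈ V k} ⊆ {k : Fin K | ((k : ℕ) : ℤ) = ⌊K * x⌋ % K ∨
        ((k : ℕ) : ℤ) = (⌊K * x⌋ + 1) % K} := by
      intro k hk
      have hk' : ‖u.1 N - (((k : ℕ) / (K : ℝ) : ℝ) : UnitAddCircle)‖ < 1 / K := hk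
      rw [← hx, ← AddCircle.coe_sub, UnitAddCircle.norm_eq] at hk'
      set m := round (x - (k : ℕ) / (K : ℝ)) with hm
      have h1 : |K * x - ((k : ℕ) + K * m : ℤ)| < 1 := by
        have h2 : K * x - ((k : ℕ) + K * m : ℤ) = K * (x - (k : ℕ) / (K : ℝ) - m) := by
          push_cast
          field_simp
          ring
        rw [h2, abs_mul, abs_of_pos hK0]
        rw [lt_div_iff₀ hK0] at hk'
        linarith
      have hkK : ((k : ℕ) : ℤ) < K := by exact_mod_cast k.2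
      have hk0 : (0 : ℤ) ≤ ((k : ℕ) : ℤ) := by positivity
      rcases int_near h1 with h2 | h2
      · left
        rw [← h2, Int.add_mul_emod_self_left, Int.emod_eq_of_lt hk0 hkK]
      · right
        rw [← h2, Int.add_mul_emod_self_left, Int.emod_eq_of_lt hk0 hkK]
    refine (Set.ncard_le_ncard hsub (Set.toFinite _)).trans ?_
    have hinj : Set.InjOn (fun k : Fin K => ((k : ℕ) : ℤ)) {k : Fin K | ((k : ℕ) : ℤ) = ⌊K * x⌋ % K ∨
        ((k : ℕ) : ℤ) = (⌊K * x⌋ + 1) % K} := by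
      intro a _ b _ hab
      have : ((a : ℕ) : ℤ) = ((b : ℕ) : ℤ) := hab
      exact Fin.ext (by exact_mod_cast this)
    rw [← hinj.ncard_image]
    have hsub2 : (fun k : Fin K => ((k : ℕ) : ℤ)) '' {k : Fin K | ((k : ℕ) : ℤ) = ⌊K * x⌋ % K ∨
        ((k : ℕ) : ℤ) = (⌊K * x⌋ + 1) % K} ⊆ {⌊K * x⌋ % K, (⌊K * x⌋ + 1) % K} := by
      rintro _ ⟨k, hk, rfl⟩
      rcases hk with h | h
      · left; exact h
      · right; exact h
    refine (Set.ncard_le_ncard hsub2 (Set.toFinite _)).trans ?_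
    exact (Set.ncard_insert_le _ _).trans (by rw [Set.ncard_singleton])

end

end Pool.Agent.L5helper55.SL
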